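import Pool.Agent.K1H5.PP.Main

set_option autoImplicit false

/-!
# Perfect projective modules over integral group rings: divisible elements

If `P` is a nonzero finitely generated perfect projective `ℤG`-module and `M` a normal subgroup
with `P = I_M P` (for instance `M = G`) then there is a perfect normal subgroup `N` of `G` inside
`M` with `P = I_N P`, and an element `g` of `N` of infinite order which is conjugate in `G` to
`g ^ p ^ j` for some `j ≥ 1`, for every prime `p`.
-/

namespace Pool.Agent.Results.MP_79a731_al.DivisibleElements

open Pool.Agent.K1H5.PP

universe u v

theorem result (G : Type u) [Group G] (P : Type v) [AddCommGroup P]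
    [Module (MonoidAlgebra ℤ G) P] (hP : PerfProj G P) (M : Subgroup G) (hM : M.Normal)
    (hg : Gen M P) : Core G P M :=
  core_thm G P hP M hM hg

end Pool.Agent.Results.MP_79a731_al.DivisibleElements
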