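import Pool.Agent.K1H5.PP.Main

set_option autoImplicit false

/-!
# Perfect projective modules over integral group rings: minimal examples

If some group has a nonzero finitely generated perfect projective module then so does a finitely
generated group (a quotient of a finitely generated subgroup), with a module `P` such that
`P = I_M P` for all normal subgroups `M ≠ 1`; each of them contains a minimal normal subgroup of
the group, which is perfect and contains a divisible element.
-/

namespace Pool.Agent.Results.MP_79a731_al.MinimalExamples

open Pool.Agent.K1H5.PP

universe u

theorem result (G : Type u) [Group G] (hG : Ex G) :
    ∃ (H : Subgroup G) (_ : H.FG) (L : Subgroup H) (_ : L.Normal) (P : Type u)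
      (_ : AddCommGroup P) (_ : Module (MonoidAlgebra ℤ (H ⧸ L)) P), MinExample (H ⧸ L) P :=
  red G hG

end Pool.Agent.Results.MP_79a731_al.MinimalExamples
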