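import Pool.Agent.K1H5.PP.Main

set_option autoImplicit false

/-!
# Perfect projective modules over integral group rings: normal series

Let `C` be a normal series of `G` of arbitrary order type. If `G` has a nonzero finitely
generated perfect projective module then so does `G ⧸ L` for some factor `L < M` of `C`, with a
module `P` and a perfect normal subgroup `N ≤ M ⧸ L` with `P = I_N P` that contains a divisible
element. So there is none if each factor `M ⧸ L` has no perfect subgroups or has no such elements
(e.g. is a torsion group), except that for `M = G` it is enough that `G ⧸ L` has no such module.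
-/

namespace Pool.Agent.Results.MP_79a731_al.NormalSeries

open Pool.Agent.K1H5.PP

universe u

theorem result (G : Type u) [Group G] (hG : Ex G) (C : Set (Subgroup G)) (hC : Series C) :
    ∃ (L M : Subgroup G) (_ : L.Normal) (P : Type u) (_ : AddCommGroup P)
      (_ : Module (MonoidAlgebra ℤ (G ⧸ L)) P), Jump C L M ∧ PerfProj (G ⧸ L) P ∧
      Core (G ⧸ L) P (M.map (QuotientGroup.mk' L)) :=
  ser G hG C hC

end Pool.Agent.Results.MP_79a731_al.NormalSeries
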