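import Pool.Agent.K1H5.PP.Main

set_option autoImplicit false

/-!
# Perfect projective modules over integral group rings: perfect subgroups

For every projective `ℤG`-module `P` (of any rank) and every subgroup `K` of `G` with
`P = I_K P` there is a perfect subgroup `H` of `K` with `P = I_H P`.
-/

namespace Pool.Agent.Results.MP_79a731_al.PerfectSubgroups

open Pool.Agent.K1H5.PP

universe u v

theorem result (G : Type u) [Group G] (P : Type v) [AddCommGroup P]
    [Module (MonoidAlgebra ℤ G) P] (hP : Module.Projective (MonoidAlgebra ℤ G) P)
    (K : Subgroup G) (hK : Gen K P) : ∃ H : Subgroup G, H ≤ K ∧ ⁅H, H⁆ = H ∧ Gen H P :=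
  m1 G P hP K hK

end Pool.Agent.Results.MP_79a731_al.PerfectSubgroups
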